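import Mathlib
import Pool.Agent.H49.Fdom.Defs
import Pool.Agent.H49.Fdom.Limit

/-!
The limit `L` of the problem equals `5 / 2`.
-/

set_option autoImplicit false

namespace Pool.Agent.Results.MP_cc2bbb_co.LimitValue

open Pool.Agent.H49.Fdom

/-- `L = 5 / 2`: the infimum of the fractional domatic numbers of the finite simple graphs with
minimum degree `2` and girth at least `g` tends to `5 / 2` as `g → ∞`. In fact it equals `5 / 2` for
every `g ≥ 9`. -/
theorem result :
    Filter.Tendsto infFdom Filter.atTop (nhds (5 / 2)) ∧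
      ∀ g : ℕ, 9 ≤ g → infFdom g = 5 / 2 :=
  ⟨tendsto_infFdom, infFdom_eq⟩

end Pool.Agent.Results.MP_cc2bbb_co.LimitValue
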